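import Mathlib

/-!
Stationary `k`-dependent hard-core processes on the integers (problem MP_38bc51_pr).
-/

open MeasureTheory ProbabilityTheory

namespace Pool.Agent.H773.HC

/-- The sigma-algebra generated by the coordinates `x a`, `a ∈ A`. -/
def sig (A : Set ℤ) : MeasurableSpace (ℤ → Bool) :=
  ⨆ a ∈ A, MeasurableSpace.comap (fun x : ℤ → Bool => x a) ⊤

/-- `μ` is the law of a stationary `k`-dependent hard-core process on `ℤ`
(`true` stands for the value 1). -/
structure HCP (k : ℕ) (μ : Measure (ℤ → Bool)) : Prop where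
  prob : IsProbabilityMeasure μ
  stat : μ.map (fun (x : ℤ → Bool) (i : ℤ) => x (i + 1)) = μ
  hard : ∀ᵐ x ∂μ, ∀ i : ℤ, ¬ (x i = true ∧ x (i + 1) = true)
  dep : ∀ A B : Set ℤ, (∀ a ∈ A, ∀ b ∈ B, (k : ℤ) < |a - b|) → Indep (sig A) (sig B) μ

/-- The maximal one-vertex marginal. -/
noncomputable def pk (k : ℕ) : ℝ :=
  sSup {p : ℝ | ∃ μ : Measure (ℤ → Bool), HCP k μ ∧ p = μ.real {x | x 0 = true}}

end Pool.Agent.H773.HC
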