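import Pool.Agent.H773.HC.Defs

/-!
Statements of the lemmas.
-/

open MeasureTheory ProbabilityTheory

namespace Pool.Agent.H773.HC

/-- consistent, shift invariant cylinder weights -/
structure Weights (W : List Bool → ℝ) : Prop where
  nil : W [] = 1
  nonneg : ∀ w, 0 ≤ W w
  left : ∀ w, W w = W (true :: w) + W (false :: w)
  right : ∀ w, W w = W (w ++ [true]) + W (w ++ [false])

/-- the word `w` is seen at positions `a, a+1, ...` -/
def cyl (a : ℤ) (w : List Bool) : Set (ℤ → Bool) := {x | ∀ i : Fin w.length, x (a + i) = w.get i}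

/-- Kolmogorov extension for binary sequences -/
def S_ext : Prop := ∀ W : List Bool → ℝ, Weights W →
  ∃ μ : Measure (ℤ → Bool), IsProbabilityMeasure μ ∧ ∀ a w, μ.real (cyl a w) = W w

def S_stat : Prop := ∀ (W : List Bool → ℝ) (μ : Measure (ℤ → Bool)) [IsProbabilityMeasure μ],
  (∀ a w, μ.real (cyl a w) = W w) → μ.map (fun (x : ℤ → Bool) (i : ℤ) => x (i + 1)) = μ

def S_dep : Prop := ∀ (k : ℕ) (W : List Bool → ℝ) (μ : Measure (ℤ → Bool)) [IsProbabilityMeasure μ],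
  (∀ a w, μ.real (cyl a w) = W w) →
  (∀ w w', ∑ v : Fin k → Bool, W (w ++ List.ofFn v ++ w') = W w * W w') →
  ∀ A B : Set ℤ, (∀ a ∈ A, ∀ b ∈ B, (k : ℤ) < |a - b|) → Indep (sig A) (sig B) μ

def S_hard : Prop := ∀ (W : List Bool → ℝ) (μ : Measure (ℤ → Bool)) [IsProbabilityMeasure μ],
  (∀ a w, μ.real (cyl a w) = W w) → W [true, true] = 0 →
  ∀ᵐ x ∂μ, ∀ i : ℤ, ¬ (x i = true ∧ x (i + 1) = true)

/-- The cylinder weights of the stationary renewal process with renewal sequence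
`1, 0, r, p, p, p, ...`: the three components are the weights of `w`, of `1 w` and of `1 0 w`. -/
def vec (p r : ℝ) : List Bool → ℝ × ℝ × ℝ
  | [] => (1, p, p)
  | false :: w => ((vec p r w).1 - (vec p r w).2.1, (vec p r w).2.2,
      p * (vec p r w).1 - r * (vec p r w).2.1)
  | true :: w => ((vec p r w).2.1, 0, r * (vec p r w).2.1)

def S_alg : Prop := ∀ p r : ℝ,
  (∀ w, (vec p r w).1 = (vec p r (true :: w)).1 + (vec p r (false :: w)).1) ∧
  (∀ w, (vec p r w).1 = (vec p r (w ++ [true])).1 + (vec p r (w ++ [false])).1) ∧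
  (∀ w w', ∑ v : Fin 2 → Bool, (vec p r (w ++ List.ofFn v ++ w')).1 =
    (vec p r w).1 * (vec p r w').1) ∧
  (vec p r [true, true]).1 = 0 ∧ (vec p r [true]).1 = p

/-- the special values: `p = 0.355008`, `r = 0.453744` -/
noncomputable def p0 : ℝ := 5547/15625
noncomputable def r0 : ℝ := 28359/62500

def S_pos : Prop := ∀ w, 0 ≤ (vec p0 r0 w).1

/-- lower bound for `k = 2` -/
def S_two : Prop := ∃ μ : Measure (ℤ → Bool), HCP 2 μ ∧ μ.real {x | x 0 = true} = p0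

/-- the cylinder weights of a `k`-dependent hard-core process -/
def S_conv : Prop := ∀ (k : ℕ) (μ : Measure (ℤ → Bool)), HCP k μ →
  Weights (fun w => μ.real (cyl 0 w)) ∧
  (∀ w w', ∑ v : Fin k → Bool, μ.real (cyl 0 (w ++ List.ofFn v ++ w')) =
    μ.real (cyl 0 w) * μ.real (cyl 0 w')) ∧
  (∀ w w', μ.real (cyl 0 (w ++ [true, true] ++ w')) = 0) ∧
  μ.real (cyl 0 [true]) = μ.real {x | x 0 = true}

/-- block factors of i.i.d. bits -/
def S_blk : Prop := ∀ (k : ℕ) (q : ℝ), 0 ≤ q → q ≤ 1 → ∀ g : (Fin (k + 1) → Bool) → Bool,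
  (∀ z : ℕ → Bool, ¬ (g (fun j => z j) = true ∧ g (fun j => z (j + 1)) = true)) →
  ∃ μ : Measure (ℤ → Bool), HCP k μ ∧ μ.real {x | x 0 = true} =
    ∑ v : Fin (k + 1) → Bool, if g v = true then ∏ i, (if v i = true then q else 1 - q) else 0

/-- upper bound for `k = 2` -/
def S_up2 : Prop := ∀ μ : Measure (ℤ → Bool), HCP 2 μ →
  μ.real {x | x 0 = true} ≤ (3 - √5) / 2

/-- upper bound for all `k` -/
def S_upk : Prop := ∀ (k : ℕ) (μ : Measure (ℤ → Bool)), HCP k μ →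
  μ.real {x | x 0 = true} * (1 - μ.real {x | x 0 = true}) ≤
    (k + 1) * (1 - 2 * μ.real {x | x 0 = true})

/-- lower bound for all `k`: block factors of i.i.d. -/
def S_low : Prop := ∀ (k : ℕ) (q : ℝ), 1 ≤ k → 0 ≤ q → q ≤ 1 →
  ∃ μ : Measure (ℤ → Bool), HCP k μ ∧
    (1 - q) * (1 - (1 - q)^k) / (2 - q) ≤ μ.real {x | x 0 = true}

def S_final : Prop :=
  (∃ μ : Measure (ℤ → Bool), HCP 2 μ ∧ μ.real {x | x 0 = true} = 5547/15625) ∧
  0.355 ≤ pk 2 ∧ pk 2 ≤ (3 - √5) / 2 ∧ pk 2 ≠ 1 / 3 ∧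
  ∀ k : ℕ, 1 ≤ k → 3 / (32 * ((k : ℝ) + 1)) ≤ 1 / 2 - pk k ∧
    1 / 2 - pk k ≤ (1 + Real.log k) / (2 * k)

end Pool.Agent.H773.HC
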